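import Pool.Agent.L0h15.OL.Ax

/-!
# Smash-nilpotence of cycles on smooth projective complex varieties
-/

set_option autoImplicit false

namespace Pool.Agent.L0h15.VN

open Pool.Agent.L0h15.OL (Sp Lin ap inn)

/-- the data -/
structure Theory where
  /-- the smooth projective complex varieties of pure dimension -/
  Var : Type
  /-- the dimension -/
  dim : Var → ℕ
  /-- the sum of the Chow groups `A^i(X)` with rational coefficients -/
  Ch : Var → Sp
  /-- the component in `A^i(X)` -/
  codim : ∀ X, ℤ → Lin (Ch X) (Ch X)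
  /-- the homologically trivial classes -/
  hom : ∀ X, OL.Sub (Ch X)
  /-- the maps which are given by correspondences -/
  Corr : ∀ {Y X}, Lin (Ch Y) (Ch X) → Prop
  /-- the power `X^m` -/
  pow : Var → ℕ → Var
  /-- the exterior power `a × ... × a` (`m` factors) of a class `a` -/
  smash : ∀ X m, Ch X → Ch (pow X m)
  /-- the embeddings of varieties as smooth hypersurface sections, for an ample line bundle -/
  Sect : Var → Var → Type
  /-- the direct image under such an embedding -/
  inc : ∀ {Y X}, Sect Y X → Lin (Ch Y) (Ch X)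

namespace Theory

variable (T : Theory)

/-- `a` is a class of cycles of dimension `e` -/
def IsDim (X : T.Var) (e : ℕ) (a : T.Ch X) : Prop := ap (T.codim X (T.dim X - e)) a = a

/-- `a` is smash-nilpotent -/
def Nilp (X : T.Var) (a : T.Ch X) : Prop := ∃ m : ℕ, 1 ≤ m ∧ T.smash X m a = 0

/-- Voevodsky's conjecture for the cycles of dimension `e` on `X` -/
def Conj (X : T.Var) (e : ℕ) : Prop := ∀ a, inn (T.hom X) a → T.IsDim X e a → T.Nilp X a

/-- `X` is a retract of `Y`: there are correspondences `a` from `X` to `Y`, which increases the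
codimension by `k`, and `b` from `Y` to `X` with `b ∘ a = 1` -/
def Retract (X Y : T.Var) (k : ℤ) : Prop :=
  ∃ (a : Lin (T.Ch X) (T.Ch Y)) (b : Lin (T.Ch Y) (T.Ch X)), T.Corr a ∧ T.Corr b ∧
    (∀ c, ap b (ap a c) = c) ∧ ∀ i c, ap (T.codim Y (i + k)) (ap a c) = ap a (ap (T.codim X i) c)

/-- `X` is a retract of a variety in `S` of the same dimension -/
def Dominates (S : Set T.Var) (X : T.Var) : Prop := ∃ Y, Y ∈ S ∧ T.dim Y = T.dim X ∧ T.Retract X Y 0

/-- the known properties -/
structure Known : Prop where
  /-- correspondences preserve homologically trivial classes -/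
  corr_hom : ∀ {X Y} (f : Lin (T.Ch Y) (T.Ch X)), T.Corr f → ∀ c, inn (T.hom Y) c →
    inn (T.hom X) (ap f c)
  /-- correspondences are compatible with exterior powers -/
  corr_smash : ∀ {X Y} (f : Lin (T.Ch Y) (T.Ch X)), T.Corr f → ∀ m,
    ∃ g : Lin (T.Ch (T.pow Y m)) (T.Ch (T.pow X m)),
      ∀ a, T.smash X m (ap f a) = ap g (T.smash Y m a)
  /-- the product with a projective line: cycles `c × point` and the projection to `X` -/
  line : ∀ X, ∃ Y, T.dim Y = T.dim X + 1 ∧ T.Retract X Y 1
  sect_dim : ∀ {Y X}, T.Sect Y X → T.dim Y + 1 = T.dim X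
  inc_corr : ∀ {Y X} (s : T.Sect Y X), T.Corr (T.inc s)
  /-- if `2 e < dim X`, then every cycle of dimension `e` is rationally equivalent, with rational
  coefficients, to a combination of disjoint smooth subvarieties (Kleiman), which is contained in some
  smooth hypersurface section (Bertini's theorem) -/
  bertini : ∀ X (e : ℕ), 2 * e < T.dim X → ∀ c, T.IsDim X e c →
    ∃ (Y : T.Var) (s : T.Sect Y X) (c' : T.Ch Y), T.IsDim Y e c' ∧ ap (T.inc s) c' = c
  /-- the Lefschetz hyperplane theorem, in homology of degree `2 e` less than the dimension of the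
  section -/
  lefschetz : ∀ {Y X} (s : T.Sect Y X) (e : ℕ), 2 * e < T.dim Y → ∀ c', T.IsDim Y e c' →
    inn (T.hom X) (ap (T.inc s) c') → inn (T.hom Y) c'

end Theory

end Pool.Agent.L0h15.VN
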