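import Pool.Agent.L0h15.VN.Defs

/-!
# Reduction of Voevodsky's conjecture for cycles of dimension `e` to varieties of dimension `2 e + 1`
-/

set_option autoImplicit false

namespace Pool.Agent.L0h15.VN

open Pool.Agent.L0h15.OL (Sp Lin ap inn)

namespace Theory

variable {T : Theory}

theorem ap_zero {V W : Sp} (f : Lin V W) : ap f (0 : V) = 0 :=
  map_zero (show V →ₗ[ℚ] W from f)

theorem nilp_corr (hK : T.Known) {X Y : T.Var} {f : Lin (T.Ch Y) (T.Ch X)} (hf : T.Corr f)
    {a : T.Ch Y} (ha : T.Nilp Y a) : T.Nilp X (ap f a) := by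
  obtain ⟨m, hm, h⟩ := ha
  obtain ⟨g, hg⟩ := hK.corr_smash f hf m
  exact ⟨m, hm, by rw [hg, h, ap_zero]⟩

/-- the conjecture for a retract, from that for the variety -/
theorem conj_retract (hK : T.Known) {X Y : T.Var} {k e : ℕ} (h : T.Retract X Y k)
    (hdim : T.dim Y = T.dim X + k) (hY : T.Conj Y e) : T.Conj X e := by
  intro c hc hi
  obtain ⟨a, b, ha, hb, hba, hcodim⟩ := h
  rw [← hba c]
  refine nilp_corr hK hb (hY _ (hK.corr_hom a ha c hc) ?_)
  have h1 : ((T.dim Y : ℤ) - e) = ((T.dim X : ℤ) - e) + k := by rw [hdim]; push_cast; ring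
  unfold IsDim
  rw [h1, hcodim]
  exact congrArg (ap a) hi

/-- the reduction -/
theorem conj_all (hK : T.Known) (e : ℕ) (hmid : ∀ X, T.dim X = 2 * e + 1 → T.Conj X e) :
    ∀ X, T.Conj X e := by
  have hlarge : ∀ k : ℕ, ∀ X, T.dim X = 2 * e + 1 + k → T.Conj X e := by
    intro k
    induction k with
    | zero => exact hmid
    | succ k ih =>
      intro X hX c hc hi
      obtain ⟨Y, s, c', hc', hinc⟩ := hK.bertini X e (by omega) c hi
      have hY : T.dim Y + 1 = T.dim X := hK.sect_dim s
      have hhom : inn (T.hom Y) c' := hK.lefschetz s e (by omega) c' hc' (by rw [hinc]; exact hc)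
      rw [← hinc]
      exact nilp_corr hK (hK.inc_corr s) (ih Y (by omega) c' hhom hc')
  have hsmall : ∀ k : ℕ, ∀ X, T.dim X + k = 2 * e + 1 → T.Conj X e := by
    intro k
    induction k with
    | zero => intro X hX; exact hmid X (by omega)
    | succ k ih =>
      intro X hX
      obtain ⟨Y, hdim, hr⟩ := hK.line X
      exact conj_retract (k := 1) hK (by exact_mod_cast hr) hdim (ih Y (by omega))
  intro X
  rcases le_total (T.dim X) (2 * e + 1) with h | h
  · exact hsmall (2 * e + 1 - T.dim X) X (by omega)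
  · exact hlarge (T.dim X - (2 * e + 1)) X (by omega)

end Theory

end Pool.Agent.L0h15.VN
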